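import Pool.Agent.U610.PC.Stm
import Pool.Agent.W335.BMX.Odd

/-! Package LOCF of project PC: isotropy at the large primes which divide the value of `P`. -/

set_option autoImplicit false

namespace Pool.Agent.U869.PC

open Polynomial Pool.Agent.U610.PC

theorem iso_sub {F : Type} [Field F] {n m : ℕ} (d : Fin n → F) (φ : Fin m → Fin n)
    (hφ : Function.Injective φ) (r s : Fin m → F) (c : F) (hs : ∀ a, s a ≠ 0)
    (h : ∀ a, d (φ a) = c * s a ^ 2 * r a) (hI : Iso r) : Iso d := by
  obtain ⟨z, hz, hsum⟩ := hI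
  refine ⟨Function.extend φ (fun a => z a / s a) 0, ?_, ?_⟩
  · intro h0
    apply hz
    funext a
    have h1 := congrFun h0 (φ a)
    rw [hφ.extend_apply] at h1
    have h2 : z a / s a = 0 := h1
    rw [div_eq_zero_iff] at h2
    exact h2.resolve_right (hs a)
  · have h1 : ∑ a, c * (r a * z a ^ 2) =
        ∑ i, d i * Function.extend φ (fun a => z a / s a) 0 i ^ 2 := by
      refine Fintype.sum_of_injective φ hφ _ _ ?_ ?_
      · intro i hi
        rw [Function.extend_apply' _ _ _ (fun ⟨a, ha⟩ => hi ⟨a, ha⟩)]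
        simp
      · intro a
        rw [hφ.extend_apply, h a]
        have := hs a
        field_simp
    rw [← h1, ← Finset.mul_sum, hsum, mul_zero]

section

variable {p : ℕ} [Fact p.Prime]

theorem coe_aeval (x : ℤ_[p]) (R : ℤ[X]) :
    ((aeval x R : ℤ_[p]) : ℚ_[p]) = aeval (x : ℚ_[p]) (q R) := by
  unfold q
  have h : (Int.castRingHom ℚ) = algebraMap ℤ ℚ := rfl
  rw [h, aeval_map_algebraMap]
  exact (aeval_algebraMap_apply ℚ_[p] x R).symm

end

/-- the values of a rational polynomial at integral arguments are integral for large primes -/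
theorem int_large (h : ℚ[X]) : ∃ N : ℕ, ∀ (p : ℕ) [Fact p.Prime], N < p → ∀ x : ℤ_[p],
    ‖(aeval (x : ℚ_[p]) h : ℚ_[p])‖ ≤ 1 := by
  refine ⟨h.support.sup fun k => (h.coeff k).den, fun p _ hp x => ?_⟩
  have hmem : (aeval (x : ℚ_[p]) h : ℚ_[p]) ∈ PadicInt.subring p := by
    rw [aeval_eq_sum_range]
    refine Subring.sum_mem _ fun k _ => ?_
    rw [Algebra.smul_def]
    refine Subring.mul_mem _ ?_ (Subring.pow_mem _ x.2 _)
    by_cases hk : h.coeff k = 0
    · rw [hk, map_zero]
      exact Subring.zero_mem _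
    · have h1 : (h.coeff k).den ≤ h.support.sup fun k => (h.coeff k).den :=
        Finset.le_sup (f := fun k => (h.coeff k).den) (mem_support_iff.2 hk)
      have h2 : ¬ p ∣ (h.coeff k).den := fun hd => by
        have := Nat.le_of_dvd (h.coeff k).pos hd
        omega
      show ‖algebraMap ℚ ℚ_[p] (h.coeff k)‖ ≤ 1
      exact Padic.norm_rat_le_one h2
  exact hmem

theorem t_LOCF (hR : S_RES) (hU : S_UNI) : S_LOCF := by
  intro n P e R hcop hfree
  choose N hN using fun i => hR P (R i) (hcop i)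
  have hNsup : ∀ i, N i ≤ Finset.univ.sup N := fun i => Finset.le_sup (Finset.mem_univ i)
  rcases hfree with ⟨i, j, k, hij, hik, hjk, p1, p2⟩ | ⟨i, j, hij, p1, h, g, hg⟩
  · refine ⟨max 2 (Finset.univ.sup N), fun p _ hp x hx hx0 => ?_⟩
    have hp2 : p ≠ 2 := by
      have := le_max_left 2 (Finset.univ.sup N)
      omega
    have hunit : ∀ t, ‖(aeval x (R t) : ℤ_[p])‖ = 1 := fun t =>
      hN t p (lt_of_le_of_lt ((hNsup t).trans (le_max_right _ _)) hp) x hx
    set π : ℚ_[p] := ((aeval x P : ℤ_[p]) : ℚ_[p]) with hπ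
    have hπ0 : π ≠ 0 := fun h0 => hx0 (Subtype.coe_injective h0)
    have hI := hU p hp2 3 le_rfl ![aeval x (R i), aeval x (R j), aeval x (R k)] (by
      intro a
      fin_cases a
      · exact hunit i
      · exact hunit j
      · exact hunit k)
    refine iso_sub _ ![i, j, k] ?_ _ ![π ^ (e i / 2), π ^ (e j / 2), π ^ (e k / 2)]
      (π ^ (e i % 2)) ?_ ?_ hI
    · intro a b hab
      fin_cases a <;> fin_cases b <;> simp_all
    · intro a
      fin_cases a
      · exact pow_ne_zero _ hπ0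
      · exact pow_ne_zero _ hπ0
      · exact pow_ne_zero _ hπ0
    · have key : ∀ t, e t % 2 = e i % 2 → ((aeval x (P ^ e t * R t) : ℤ_[p]) : ℚ_[p]) =
          π ^ (e i % 2) * (π ^ (e t / 2)) ^ 2 * ((aeval x (R t) : ℤ_[p]) : ℚ_[p]) := by
        intro t ht
        rw [map_mul, map_pow, PadicInt.coe_mul, PadicInt.coe_pow, ← hπ, ← pow_mul, ← pow_add, ← ht]
        congr 2
        omega
      intro a
      fin_cases a
      · exact key i rfl
      · exact key j p1.symm
      · exact key k p2.symm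
  · obtain ⟨M1, hM1⟩ := int_large h
    obtain ⟨M2, hM2⟩ := int_large g
    refine ⟨max (max 2 (Finset.univ.sup N)) (max M1 M2), fun p _ hp x hx hx0 => ?_⟩
    have l1 : 2 < p := lt_of_le_of_lt ((le_max_left _ _).trans (le_max_left _ _)) hp
    have l2 : Finset.univ.sup N < p := lt_of_le_of_lt ((le_max_right _ _).trans (le_max_left _ _)) hp
    have l3 : M1 < p := lt_of_le_of_lt ((le_max_left _ _).trans (le_max_right _ _)) hp
    have l4 : M2 < p := lt_of_le_of_lt ((le_max_right _ _).trans (le_max_right _ _)) hp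
    have hp2 : p ≠ 2 := by omega
    have hunit : ∀ t, ‖(aeval x (R t) : ℤ_[p])‖ = 1 := fun t =>
      hN t p (lt_of_le_of_lt (hNsup t) l2) x hx
    set π : ℚ_[p] := ((aeval x P : ℤ_[p]) : ℚ_[p]) with hπ
    have hπ0 : π ≠ 0 := fun h0 => hx0 (Subtype.coe_injective h0)
    set ri : ℤ_[p] := aeval x (R i) with hri
    set rj : ℤ_[p] := aeval x (R j) with hrj
    let η : ℤ_[p] := ⟨aeval (x : ℚ_[p]) h, hM1 p l3 x⟩
    let γ : ℤ_[p] := ⟨aeval (x : ℚ_[p]) g, hM2 p l4 x⟩
    have hrel : -(ri * rj) = η ^ 2 + aeval x P * γ := by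
      apply Subtype.coe_injective
      have h1 := congrArg (aeval (x : ℚ_[p])) hg
      have h2 : q (-(R i * R j)) = -(q (R i) * q (R j)) := by simp [q]
      rw [h2, map_sub, map_pow, map_mul, map_neg, map_mul, ← coe_aeval, ← coe_aeval,
        ← coe_aeval] at h1
      show (((-(ri * rj) : ℤ_[p])) : ℚ_[p]) = ((η ^ 2 + aeval x P * γ : ℤ_[p]) : ℚ_[p])
      push_cast
      show -((ri : ℚ_[p]) * (rj : ℚ_[p])) = (aeval (x : ℚ_[p]) h) ^ 2 +
        ((aeval x P : ℤ_[p]) : ℚ_[p]) * (aeval (x : ℚ_[p]) g)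
      linear_combination h1
    have hnorm : ‖-(ri * rj)‖ = 1 := by
      rw [norm_neg, norm_mul, hunit i, hunit j, mul_one]
    have hz : PadicInt.toZMod (-(ri * rj)) = (PadicInt.toZMod η) ^ 2 := by
      have h1 : PadicInt.toZMod (aeval x P : ℤ_[p]) = 0 := by
        rw [Pool.Agent.W335.BMX.toZMod_eq_zero_iff]
        exact PadicInt.norm_lt_one_iff_dvd _ |>.1 hx
      rw [hrel, map_add, map_mul, h1, zero_mul, add_zero, map_pow]
    have hη : PadicInt.toZMod η ≠ 0 := by
      intro h0
      rw [h0, zero_pow two_ne_zero, Pool.Agent.W335.BMX.toZMod_eq_zero_iff,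
        ← PadicInt.norm_lt_one_iff_dvd, hnorm] at hz
      exact lt_irrefl _ hz
    obtain ⟨s, hs⟩ := Pool.Agent.W335.BMX.sq_of_residue hp2 _ _ hη hz
    have hri0 : ri ≠ 0 := by
      intro h0
      have := hunit i
      rw [← hri, h0, norm_zero] at this
      exact zero_ne_one this
    have hI : Iso ![(ri : ℚ_[p]), (rj : ℚ_[p])] := by
      refine ⟨![(s : ℚ_[p]), (ri : ℚ_[p])], ?_, ?_⟩
      · intro h0
        have h1 := congrFun h0 1
        simp at h1
        exact hri0 h1
      · simp only [Fin.sum_univ_two, Matrix.cons_val_zero, Matrix.cons_val_one]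
        have h1 : -((ri : ℚ_[p]) * (rj : ℚ_[p])) = (s : ℚ_[p]) * (s : ℚ_[p]) := by
          have := congrArg (fun z : ℤ_[p] => (z : ℚ_[p])) hs
          push_cast at this
          exact this
        linear_combination -(ri : ℚ_[p]) * h1
    refine iso_sub _ ![i, j] ?_ _ ![π ^ (e i / 2), π ^ (e j / 2)]
      (π ^ (e i % 2)) ?_ ?_ hI
    · intro a b hab
      fin_cases a <;> fin_cases b <;> simp_all
    · intro a
      fin_cases a
      · exact pow_ne_zero _ hπ0
      · exact pow_ne_zero _ hπ0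
    · have key : ∀ t, e t % 2 = e i % 2 → ((aeval x (P ^ e t * R t) : ℤ_[p]) : ℚ_[p]) =
          π ^ (e i % 2) * (π ^ (e t / 2)) ^ 2 * ((aeval x (R t) : ℤ_[p]) : ℚ_[p]) := by
        intro t ht
        rw [map_mul, map_pow, PadicInt.coe_mul, PadicInt.coe_pow, ← hπ, ← pow_mul, ← pow_add, ← ht]
        congr 2
        omega
      intro a
      fin_cases a
      · exact key i rfl
      · exact key j p1.symm

end Pool.Agent.U869.PC
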